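import Pool.Agent.E8helper22.SZ.Stm

/-!
# Project SZ: an odd prime divides the conductor of a real primitive character exactly once
-/

set_option autoImplicit false

namespace Pool.Agent.E8helper89.SZ

open Pool.Agent.E8helper22.SZ Finset

lemma even_of_sum (p : ℕ) (f : ℕ → ℝ) (h : ∀ b ∈ range p, f b = 1 ∨ f b = -1)
    (h0 : ∑ b ∈ range p, f b = 0) : Even p := by
  classical
  have h1 : ∀ b ∈ range p, f b = 2 * (if f b = 1 then (1 : ℝ) else 0) - 1 := by
    intro b hb
    rcases h b hb with h | h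
    · rw [if_pos h, h]
      norm_num
    · rw [if_neg (by rw [h]; norm_num), h]
      norm_num
  rw [sum_congr rfl h1, sum_sub_distrib, ← mul_sum, sum_boole, sum_const, card_range,
    nsmul_eq_mul, mul_one] at h0
  have h2 : ((2 * ((range p).filter fun b => f b = 1).card : ℕ) : ℝ) = (p : ℝ) := by
    push_cast
    linarith
  have h3 := Nat.cast_injective h2
  exact ⟨_, by rw [← h3, two_mul]⟩

/-- the value at a unit -/
lemma cv_unit {q : ℕ} {χ : DirichletCharacter ℂ q} (hχ : RealPrim q χ) {m : ℕ}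
    (hm : Nat.Coprime m q) : χ (m : ZMod q) = 1 ∨ χ (m : ZMod q) = -1 := by
  rcases hχ.quad (m : ZMod q) with h | h | h
  · exact absurd h (((ZMod.isUnit_iff_coprime m q).2 hm).map χ).ne_zero
  · exact Or.inl h
  · exact Or.inr h

lemma cv_unit' {q : ℕ} {χ : DirichletCharacter ℂ q} (hχ : RealPrim q χ) {m : ℕ}
    (hm : Nat.Coprime m q) : cv χ m = 1 ∨ cv χ m = -1 := by
  rcases cv_unit hχ hm with h | h
  · left
    simp [cv, h]
  · right
    simp [cv, h]

/-- an odd prime divides the conductor at most once -/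
lemma not_sq (h : S_BAL) {q p q' : ℕ} {χ : DirichletCharacter ℂ q} (hq : 0 < q)
    (hχ : RealPrim q χ) (hp : p.Prime) (h2 : p ≠ 2) (he : q = p * q') : ¬ p ∣ q' := by
  intro hd
  have h1 := h q p q' 1 χ hq hχ hp he (by
    intro h
    exact hp.one_lt.ne' (Nat.dvd_one.1 h)) 1
  have hc : ∀ b : ℕ, Nat.Coprime (1 + q' * 1 * b) q := by
    intro b
    have e1 : Nat.Coprime (1 + q' * 1 * b) q' := by
      rw [mul_one]
      exact (Nat.coprime_add_mul_left_left 1 q' b).2 (Nat.coprime_one_left q')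
    rw [he]
    exact Nat.Coprime.mul_right (e1.coprime_dvd_right hd) e1
  have h3 := even_of_sum p (fun b => cv χ (1 + q' * 1 * b)) (fun b _ => cv_unit' hχ (hc b)) h1
  rcases hp.eq_two_or_odd' with h4 | h4
  · exact h2 h4
  · exact (Nat.not_even_iff_odd.2 h4) h3

/-- the conductor is not divisible by `16` -/
lemma not_16 (h : S_BAL) {q : ℕ} {χ : DirichletCharacter ℂ q} (hq : 0 < q)
    (hχ : RealPrim q χ) : ¬ 16 ∣ q := by
  rintro ⟨m, rfl⟩
  have h1 := h (16 * m) 2 (8 * m) 1 χ hq hχ Nat.prime_two (by ring) (by norm_num) 1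
  rw [sum_range_succ, sum_range_one] at h1
  have h2 : cv χ (1 + 8 * m * 1 * 0) = 1 := by simp [cv]
  have h3 : ((1 + 8 * m * 1 * 1 : ℕ) : ZMod (16 * m)) = ((1 + 4 * m : ℕ) : ZMod (16 * m)) ^ 2 := by
    have e : ((16 * m : ℕ) : ZMod (16 * m)) = 0 := ZMod.natCast_self _
    have e2 : (16 : ZMod (16 * m)) * (m : ZMod (16 * m)) = 0 := by exact_mod_cast e
    push_cast
    linear_combination (-(m : ZMod (16 * m))) * e2
  have hc : Nat.Coprime (1 + 4 * m) (16 * m) := by
    have e1 : Nat.Coprime (1 + 4 * m) m := by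
      have := (Nat.coprime_add_mul_right_left 1 m 4).2 (Nat.coprime_one_left m)
      exact this
    have e2 : Nat.Coprime (1 + 4 * m) 16 := by
      have e3 : Nat.Coprime (1 + 4 * m) 2 := by
        exact Nat.coprime_two_right.2 ⟨2 * m, by ring⟩
      have := e3.pow_right 4
      norm_num at this
      exact this
    exact Nat.Coprime.mul_right e2 e1
  have h4 : cv χ (1 + 8 * m * 1 * 1) = 1 := by
    unfold cv
    rw [h3, map_pow]
    rcases cv_unit hχ hc with h | h
    · rw [h]
      simp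
    · rw [h]
      simp
  rw [h2, h4] at h1
  norm_num at h1

theorem t_ODD (h : S_BAL) : S_ODD := by
  intro q χ hq hχ
  have h0 : 0 < q := by omega
  rcases Nat.eq_two_pow_or_exists_odd_prime_and_dvd q with ⟨k, hk⟩ | ⟨p, hp, ⟨q', hq'⟩, ho⟩
  · exfalso
    have hk4 : 4 ≤ k := by
      by_contra hlt
      have : k ≤ 3 := by omega
      have := Nat.pow_le_pow_right (n := 2) (by norm_num) this
      omega
    apply not_16 h h0 hχ
    rw [hk]
    exact pow_dvd_pow 2 hk4
  · have hp2 : p ≠ 2 := by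
      rintro rfl
      exact absurd ho (by decide)
    exact ⟨p, q', hp, hp2, hq', not_sq h h0 hχ hp hp2 hq'⟩

end Pool.Agent.E8helper89.SZ
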